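import Mathlib

set_option autoImplicit false

namespace Pool.Agent.L5helper13.IV

open MvPolynomial

variable {n : ℕ}

theorem eval_hom (F : MvPolynomial (Fin n) ℂ →ₐ[ℂ] MvPolynomial (Fin n) ℂ) (x : Fin n → ℂ)
    (p : MvPolynomial (Fin n) ℂ) : eval x (F p) = eval (fun i => eval x (F (X i))) p := by
  have : (eval x).comp F.toRingHom = eval (fun i => eval x (F (X i))) := by
    apply MvPolynomial.ringHom_ext
    · intro r
      have h1 : F (C r) = C r := F.commutes r
      simp [h1]
    · intro k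
      simp
  exact congrArg (fun f => f p) this

theorem eval_smul_hom (p : MvPolynomial (Fin n) ℂ) (d : ℕ) (hp : p.IsHomogeneous d) (t : ℂ)
    (x : Fin n → ℂ) : eval (t • x) p = t ^ d * eval x p := by
  rw [eval_eq', eval_eq', Finset.mul_sum]
  refine Finset.sum_congr rfl fun e he => ?_
  have h1 : e.degree = d := by
    rw [Finsupp.degree_eq_weight_one]
    exact hp (mem_support_iff.1 he)
  have h2 : (∏ i, (t • x) i ^ e i) = t ^ d * ∏ i, x i ^ e i := by
    simp only [Pi.smul_apply, smul_eq_mul, mul_pow, Finset.prod_mul_distrib]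
    rw [Finset.prod_pow_eq_pow_sum, ← h1]
    congr 2
    rw [Finsupp.degree_eq_sum]
  rw [h2]
  ring

/-- Involutions of the form linear plus homogeneous are linearizable. -/
theorem core (F : MvPolynomial (Fin n) ℂ ≃ₐ[ℂ] MvPolynomial (Fin n) ℂ)
    (hF : ∀ p, F (F p) = p) (A : Fin n → Fin n → ℂ) (H : Fin n → MvPolynomial (Fin n) ℂ) (d : ℕ)
    (hd : 2 ≤ d) (hH : ∀ i, (H i).IsHomogeneous d)
    (hFX : ∀ i, F (X i) = ∑ j, C (A i j) * X j + H i) :
    ∃ G : MvPolynomial (Fin n) ℂ ≃ₐ[ℂ] MvPolynomial (Fin n) ℂ,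
      ∀ i, (G.symm (F (G (X i)))).IsHomogeneous 1 := by
  classical
  -- the maps
  obtain ⟨l, hl⟩ : ∃ l : (Fin n → ℂ) →ₗ[ℂ] (Fin n → ℂ), ∀ x i, l x i = ∑ j, A i j * x j :=
    ⟨Matrix.toLin' (Matrix.of A), fun x i => by
      simp [Matrix.toLin'_apply, Matrix.mulVec, dotProduct]⟩
  set h : (Fin n → ℂ) → (Fin n → ℂ) := fun x i => eval x (H i) with hh
  have hhs : ∀ (t : ℂ) (x : Fin n → ℂ), h (t • x) = t ^ d • h x := by
    intro t x
    funext i
    simp only [hh, Pi.smul_apply, smul_eq_mul]
    exact eval_smul_hom (H i) d (hH i) t x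
  have hcont : Continuous h := by
    refine continuous_pi fun i => ?_
    exact MvPolynomial.continuous_eval (H i)
  have hf : ∀ x, (fun i => eval x (F (X i))) = l x + h x := by
    intro x
    funext i
    rw [hFX i]
    simp [hl, hh]
  have hFe : ∀ x p, eval x (F p) = eval (l x + h x) p := by
    intro x p
    have := eval_hom (F : MvPolynomial (Fin n) ℂ →ₐ[ℂ] MvPolynomial (Fin n) ℂ) x p
    simp only [AlgEquiv.coe_toAlgHom] at this
    rw [this, hf x]
  have hff : ∀ x, l (l x + h x) + h (l x + h x) = x := by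
    intro x
    funext i
    have h1 := hFe x (F (X i))
    rw [hF, eval_X, hFe, eval_X] at h1
    exact h1.symm
  have hτ : ∀ (τ : ℂ), τ ≠ 0 → ∀ x, l (l x) + τ • (l (h x) + h (l x + τ • h x)) = x := by
    intro τ hτ0 x
    obtain ⟨t, ht⟩ := IsAlgClosed.exists_pow_nat_eq τ (show 0 < d - 1 by omega)
    have ht0 : t ≠ 0 := by
      rintro rfl
      rw [zero_pow (by omega)] at ht
      exact hτ0 ht.symm
    have h1 := hff (t • x)
    have hd1 : t ^ d = t * τ := by
      rw [← ht, ← pow_succ']
      congr 1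
      omega
    have h2 : l (t • x) + h (t • x) = t • (l x + τ • h x) := by
      rw [map_smul, hhs, hd1, smul_add, smul_smul]
    rw [h2, hhs, hd1, map_smul, map_add, map_smul] at h1
    have h3 : t • (l (l x) + τ • (l (h x) + h (l x + τ • h x))) = t • x := by
      rw [← h1]
      simp only [smul_add, mul_smul]
      abel
    exact smul_right_injective _ ht0 h3
  have hll : ∀ x, l (l x) = x := by
    intro x
    have hc1 : Continuous fun τ : ℂ => l (l x) + τ • (l (h x) + h (l x + τ • h x)) := by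
      have : Continuous fun τ : ℂ => h (l x + τ • h x) := hcont.comp (by fun_prop)
      fun_prop
    have h1 := Continuous.ext_on (dense_compl_singleton (0 : ℂ)) hc1
      (continuous_const (y := x)) (fun τ hτ0 => hτ τ hτ0 x)
    have h2 := congrFun h1 0
    simpa using h2
  have hh1 : ∀ (τ : ℂ), τ ≠ 0 → ∀ x, h (l x + τ • h x) = - l (h x) := by
    intro τ hτ0 x
    have h1 := hτ τ hτ0 x
    rw [hll, add_eq_left] at h1
    have h2 := (smul_eq_zero.1 h1).resolve_left hτ0
    rw [add_comm] at h2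
    exact eq_neg_of_add_eq_zero_left h2
  have hinv : ∀ (σ τ : ℂ), σ ≠ 0 → τ ≠ 0 → ∀ x, h (x + (σ - τ) • l (h x)) = h x := by
    intro σ τ hσ hτ0 x
    have h1 := hh1 τ hτ0 (l x + σ • h x)
    rw [hh1 σ hσ x] at h1
    have h2 : l (l x + σ • h x) + τ • -l (h x) = x + (σ - τ) • l (h x) := by
      rw [map_add, hll, map_smul, sub_smul, smul_neg]
      abel
    rw [h2, map_neg, hll, neg_neg] at h1
    exact h1
  have hp : ∀ x, h (x + (1 / 2 : ℂ) • l (h x)) = h x := by
    intro x
    have := hinv (3 / 2) 1 (by norm_num) one_ne_zero x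
    norm_num at this ⊢
    exact this
  have hm : ∀ x, h (x + (-(1 / 2) : ℂ) • l (h x)) = h x := by
    intro x
    have := hinv 1 (3 / 2) one_ne_zero (by norm_num) x
    norm_num at this ⊢
    exact this
  -- the polynomial maps
  set P : ℂ → Fin n → MvPolynomial (Fin n) ℂ :=
    fun s i => X i + C s * ∑ j, C (A i j) * H j with hP
  have hPe : ∀ s x i, eval x (P s i) = (x + s • l (h x)) i := by
    intro s x i
    simp [hP, hl, hh]
  have hPe2 : ∀ s x p, eval x (aeval (P s) p) = eval (x + s • l (h x)) p := by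
    intro s x p
    have := eval_hom (aeval (P s)) x p
    rw [this]
    congr 1
    congr 1
    funext i
    rw [aeval_X, hPe]
  have hinvPQ : ∀ s : ℂ, (∀ x, h (x + s • l (h x)) = h x) → ∀ p,
      aeval (P s) (aeval (P (-s)) p) = p := by
    intro s hs p
    apply MvPolynomial.funext
    intro x
    rw [hPe2, hPe2, hs x]
    congr 1
    rw [neg_smul]
    abel_nf
  set G : MvPolynomial (Fin n) ℂ ≃ₐ[ℂ] MvPolynomial (Fin n) ℂ :=
    AlgEquiv.ofAlgHom (aeval (P (1 / 2))) (aeval (P (-(1 / 2))))
      (by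
        apply AlgHom.ext
        intro p
        exact hinvPQ (1 / 2) hp p)
      (by
        apply AlgHom.ext
        intro p
        have := hinvPQ (-(1 / 2)) hm p
        rw [neg_neg] at this
        exact this) with hG
  refine ⟨G, fun i => ?_⟩
  have hkey : F (G (X i)) = G (∑ j, C (A i j) * X j) := by
    apply MvPolynomial.funext
    intro x
    have e1 : ∀ p, G p = aeval (P (1 / 2)) p := fun p => rfl
    rw [e1, e1, hFe, hPe2, hPe2, eval_X]
    have h1 := hh1 1 one_ne_zero x
    rw [one_smul] at h1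
    rw [h1, map_neg, hll]
    have h2 : eval (x + (1 / 2 : ℂ) • l (h x)) (∑ j, C (A i j) * X j)
        = l (x + (1 / 2 : ℂ) • l (h x)) i := by
      rw [hl]
      simp
    rw [h2, map_add, map_smul, hll]
    simp only [Pi.add_apply, Pi.smul_apply, Pi.neg_apply, smul_eq_mul]
    ring
  rw [hkey, AlgEquiv.symm_apply_apply]
  refine IsHomogeneous.sum _ _ _ fun j _ => ?_
  exact isHomogeneous_C_mul_X _ _

end Pool.Agent.L5helper13.IV
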