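import Pool.Agent.L5helper13.IV.Quad

set_option autoImplicit false

namespace Pool.Agent.L5helper13.IV

open MvPolynomial

variable {n : ℕ}

/-- The translation automorphism. -/
noncomputable def trans (p : Fin n → ℂ) : MvPolynomial (Fin n) ℂ ≃ₐ[ℂ] MvPolynomial (Fin n) ℂ :=
  AlgEquiv.ofAlgHom (aeval fun i => X i + C (p i)) (aeval fun i => X i - C (p i))
    (by
      apply MvPolynomial.algHom_ext
      intro i
      simp)
    (by
      apply MvPolynomial.algHom_ext
      intro i
      simp)

theorem eval_trans (p x : Fin n → ℂ) (q : MvPolynomial (Fin n) ℂ) :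
    eval x (trans p q) = eval (x + p) q := by
  have := eval_hom (trans p : MvPolynomial (Fin n) ℂ →ₐ[ℂ] MvPolynomial (Fin n) ℂ) x q
  simp only [AlgEquiv.coe_toAlgHom] at this
  rw [this]
  congr 1
  congr 1
  funext i
  simp [trans]

theorem eval_trans_symm (p x : Fin n → ℂ) (q : MvPolynomial (Fin n) ℂ) :
    eval x ((trans p).symm q) = eval (x - p) q := by
  have := eval_hom ((trans p).symm : MvPolynomial (Fin n) ℂ →ₐ[ℂ] MvPolynomial (Fin n) ℂ) x q
  simp only [AlgEquiv.coe_toAlgHom] at this
  rw [this]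
  congr 1
  congr 1
  funext i
  simp [trans]

theorem decomp (p : MvPolynomial (Fin n) ℂ) (hp : p.totalDegree ≤ 2) :
    p = C (coeff 0 p) + homogeneousComponent 1 p + homogeneousComponent 2 p := by
  have h1 := sum_homogeneousComponent p
  have h2 : ∑ i ∈ Finset.range 3, homogeneousComponent i p = p := by
    rw [← h1]
    conv_rhs => rw [h1]
    conv_lhs => rw [h1]
    conv_rhs => rw [← h1]
    symm
    refine Finset.sum_subset (Finset.range_mono (by omega)) ?_
    intro i _ hi
    rw [Finset.mem_range] at hi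
    exact homogeneousComponent_eq_zero _ _ (by omega)
  rw [Finset.sum_range_succ, Finset.sum_range_succ, Finset.sum_range_one,
    homogeneousComponent_zero] at h2
  exact h2.symm

/-- Involutions of degree at most two are linearizable. -/
theorem quad (F : MvPolynomial (Fin n) ℂ ≃ₐ[ℂ] MvPolynomial (Fin n) ℂ)
    (hF : ∀ p, F (F p) = p) (hdeg : ∀ i, (F (X i)).totalDegree ≤ 2) :
    ∃ G : MvPolynomial (Fin n) ℂ ≃ₐ[ℂ] MvPolynomial (Fin n) ℂ,
      ∀ i, (G.symm (F (G (X i)))).IsHomogeneous 1 := by
  classical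
  choose a ha using fun i => lin_form (homogeneousComponent 1 (F (X i)))
    (homogeneousComponent_isHomogeneous 1 _)
  choose b hb using fun i => quad_form (homogeneousComponent 2 (F (X i)))
    (homogeneousComponent_isHomogeneous 2 _)
  set c : Fin n → ℂ := fun i => coeff 0 (F (X i)) with hc
  obtain ⟨l, hl⟩ : ∃ l : (Fin n → ℂ) →ₗ[ℂ] (Fin n → ℂ), ∀ x i, l x i = ∑ j, a i j * x j :=
    ⟨Matrix.toLin' (Matrix.of a), fun x i => by
      simp [Matrix.toLin'_apply, Matrix.mulVec, dotProduct]⟩
  obtain ⟨B, hB⟩ : ∃ B : (Fin n → ℂ) →ₗ[ℂ] (Fin n → ℂ) →ₗ[ℂ] (Fin n → ℂ),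
      ∀ x y i, B x y i = ∑ j, ∑ k, b i j k * (x j * y k) := by
    refine ⟨LinearMap.mk₂ ℂ (fun x y i => ∑ j, ∑ k, b i j k * (x j * y k)) ?_ ?_ ?_ ?_, ?_⟩
    · intro x x' y
      funext i
      simp only [Pi.add_apply, ← Finset.sum_add_distrib]
      refine Finset.sum_congr rfl fun j _ => Finset.sum_congr rfl fun k _ => ?_
      ring
    · intro t x y
      funext i
      simp only [Pi.smul_apply, smul_eq_mul, Finset.mul_sum]
      refine Finset.sum_congr rfl fun j _ => Finset.sum_congr rfl fun k _ => ?_
      ring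
    · intro x y y'
      funext i
      simp only [Pi.add_apply, ← Finset.sum_add_distrib]
      refine Finset.sum_congr rfl fun j _ => Finset.sum_congr rfl fun k _ => ?_
      ring
    · intro t x y
      funext i
      simp only [Pi.smul_apply, smul_eq_mul, Finset.mul_sum]
      refine Finset.sum_congr rfl fun j _ => Finset.sum_congr rfl fun k _ => ?_
      ring
    · intro x y i
      rfl
  have hf : ∀ x, (fun i => eval x (F (X i))) = c + l x + B x x := by
    intro x
    funext i
    have h1 := congrArg (eval x) (decomp (F (X i)) (hdeg i))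
    rw [h1, map_add, map_add, eval_C, ha, hb]
    simp only [Pi.add_apply, hl, hB, hc]
  have hFe : ∀ x p, eval x (F p) = eval (c + l x + B x x) p := by
    intro x p
    have := eval_hom (F : MvPolynomial (Fin n) ℂ →ₐ[ℂ] MvPolynomial (Fin n) ℂ) x p
    simp only [AlgEquiv.coe_toAlgHom] at this
    rw [this, hf x]
  have hff : ∀ x, c + l (c + l x + B x x) + B (c + l x + B x x) (c + l x + B x x) = x := by
    intro x
    funext i
    have h1 := hFe x (F (X i))
    rw [hF, eval_X, hFe, eval_X] at h1
    exact h1.symm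
  obtain ⟨p, hp⟩ := fixed_point c l B hff
  -- conjugate by the translation
  set F' : MvPolynomial (Fin n) ℂ ≃ₐ[ℂ] MvPolynomial (Fin n) ℂ :=
    ((trans p).symm.trans F).trans (trans p) with hF'
  have hF'e : ∀ q, F' q = trans p (F ((trans p).symm q)) := fun q => rfl
  have hF'F : ∀ q, F' (F' q) = q := by
    intro q
    rw [hF'e, hF'e, AlgEquiv.symm_apply_apply, hF, AlgEquiv.apply_symm_apply]
  have hF'X : ∀ i, F' (X i) = ∑ j, C (a i j + ∑ k, (b i j k * p k + b i k j * p k)) * X j
      + homogeneousComponent 2 (F (X i)) := by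
    intro i
    apply MvPolynomial.funext
    intro x
    rw [hF'e, eval_trans, hFe, eval_trans_symm, eval_X, map_add (eval x), hb]
    have e1 : c + l (x + p) + B (x + p) (x + p) - p = l x + (B x p + B p x) + B x x := by
      simp only [map_add, LinearMap.add_apply]
      linear_combination (norm := module) hp
    rw [e1]
    simp only [Pi.add_apply, hB, hl, map_sum, map_mul, eval_C, eval_X]
    congr 1
    have e2 : ∑ j, ∑ k, b i j k * (p j * x k) = ∑ j, ∑ k, b i k j * (p k * x j) := Finset.sum_comm
    rw [e2, ← Finset.sum_add_distrib, ← Finset.sum_add_distrib]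
    refine Finset.sum_congr rfl fun j _ => ?_
    rw [← Finset.sum_add_distrib, add_mul, Finset.sum_mul]
    congr 1
    refine Finset.sum_congr rfl fun k _ => ?_
    ring
  obtain ⟨G', hG'⟩ := core F' hF'F _ (fun i => homogeneousComponent 2 (F (X i))) 2 le_rfl
    (fun i => homogeneousComponent_isHomogeneous 2 _) hF'X
  refine ⟨G'.trans (trans p).symm, fun i => ?_⟩
  have e3 : (G'.trans (trans p).symm).symm (F ((G'.trans (trans p).symm) (X i)))
      = G'.symm (F' (G' (X i))) := rfl
  rw [e3]
  exact hG' i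

/-- Every involution of degree at most two, and every involution of the form linear plus
homogeneous, is linearizable. -/
theorem main (F : MvPolynomial (Fin n) ℂ ≃ₐ[ℂ] MvPolynomial (Fin n) ℂ)
    (hF : ∀ p, F (F p) = p)
    (h : (∀ i, (F (X i)).totalDegree ≤ 2) ∨
      ∃ (d : ℕ) (L H : Fin n → MvPolynomial (Fin n) ℂ),
        ∀ i, (L i).IsHomogeneous 1 ∧ (H i).IsHomogeneous d ∧ F (X i) = L i + H i) :
    ∃ G : MvPolynomial (Fin n) ℂ ≃ₐ[ℂ] MvPolynomial (Fin n) ℂ,
      ∀ i, (G.symm (F (G (X i)))).IsHomogeneous 1 := by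
  rcases h with h | ⟨d, L, H, hLH⟩
  · exact quad F hF h
  · by_cases hd : 2 ≤ d
    · choose a ha using fun i => lin_form (L i) (hLH i).1
      refine core F hF a H d hd (fun i => (hLH i).2.1) (fun i => ?_)
      rw [(hLH i).2.2]
      congr 1
      apply MvPolynomial.funext
      intro x
      rw [ha]
      simp
    · refine quad F hF (fun i => ?_)
      rw [(hLH i).2.2]
      refine (totalDegree_add _ _).trans (max_le ?_ ?_)
      · exact (hLH i).1.totalDegree_le.trans (by omega)
      · exact (hLH i).2.1.totalDegree_le.trans (by omega)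

end Pool.Agent.L5helper13.IV
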