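import Pool.Agent.L5helper13.IV.Core

set_option autoImplicit false

namespace Pool.Agent.L5helper13.IV

open MvPolynomial

variable {n : ℕ}

theorem deg_succ (e : Fin n →₀ ℕ) (d : ℕ) (h : e.degree = d + 1) :
    ∃ (j : Fin n) (e' : Fin n →₀ ℕ), e = Finsupp.single j 1 + e' ∧ e'.degree = d := by
  have h0 : ∃ j, e j ≠ 0 := by
    by_contra hne
    push Not at hne
    have : e = 0 := Finsupp.ext hne
    rw [this, map_zero] at h
    omega
  obtain ⟨j, hj⟩ := h0
  have hle : Finsupp.single j 1 ≤ e := by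
    rw [Finsupp.single_le_iff]
    omega
  refine ⟨j, e - Finsupp.single j 1, (add_tsub_cancel_of_le hle).symm, ?_⟩
  have h1 := congrArg Finsupp.degree (add_tsub_cancel_of_le hle)
  rw [map_add, h, Finsupp.degree_single] at h1
  omega

theorem lin_form (p : MvPolynomial (Fin n) ℂ) (hp : p.IsHomogeneous 1) :
    ∃ a : Fin n → ℂ, ∀ x, eval x p = ∑ j, a j * x j := by
  rw [p.as_sum]
  refine Finset.sum_induction _ (fun q => ∃ a : Fin n → ℂ, ∀ x, eval x q = ∑ j, a j * x j) ?_ ?_ ?_
  · rintro q r ⟨a, ha⟩ ⟨b, hb⟩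
    refine ⟨fun j => a j + b j, fun x => ?_⟩
    rw [map_add, ha, hb, ← Finset.sum_add_distrib]
    refine Finset.sum_congr rfl fun j _ => ?_
    ring
  · exact ⟨0, fun x => by simp⟩
  · intro e he
    have h1 : e.degree = 0 + 1 := by
      rw [Finsupp.degree_eq_weight_one]
      exact hp (mem_support_iff.1 he)
    obtain ⟨j, e', rfl, h2⟩ := deg_succ e 0 h1
    have h3 : e' = 0 := (Finsupp.degree_eq_zero_iff e').1 h2
    subst h3
    refine ⟨Pi.single j (coeff (Finsupp.single j 1 + 0) p), fun x => ?_⟩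
    rw [add_zero, eval_monomial]
    rw [Finset.sum_eq_single j]
    · simp
    · intro k _ hk
      simp [hk]
    · simp

theorem quad_form (p : MvPolynomial (Fin n) ℂ) (hp : p.IsHomogeneous 2) :
    ∃ b : Fin n → Fin n → ℂ, ∀ x, eval x p = ∑ j, ∑ k, b j k * (x j * x k) := by
  rw [p.as_sum]
  refine Finset.sum_induction _
    (fun q => ∃ b : Fin n → Fin n → ℂ, ∀ x, eval x q = ∑ j, ∑ k, b j k * (x j * x k)) ?_ ?_ ?_
  · rintro q r ⟨a, ha⟩ ⟨b, hb⟩
    refine ⟨fun j k => a j k + b j k, fun x => ?_⟩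
    rw [map_add, ha, hb, ← Finset.sum_add_distrib]
    refine Finset.sum_congr rfl fun j _ => ?_
    rw [← Finset.sum_add_distrib]
    refine Finset.sum_congr rfl fun k _ => ?_
    ring
  · exact ⟨0, fun x => by simp⟩
  · intro e he
    have h1 : e.degree = 1 + 1 := by
      rw [Finsupp.degree_eq_weight_one]
      exact hp (mem_support_iff.1 he)
    obtain ⟨j, e', rfl, h2⟩ := deg_succ e 1 h1
    obtain ⟨k, e'', rfl, h3⟩ := deg_succ e' 0 h2
    have h4 : e'' = 0 := (Finsupp.degree_eq_zero_iff e'').1 h3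
    subst h4
    set c := coeff (Finsupp.single j 1 + (Finsupp.single k 1 + 0)) p with hc
    refine ⟨fun j' k' => if j' = j ∧ k' = k then c else 0, fun x => ?_⟩
    have h5 : monomial (Finsupp.single j 1 + (Finsupp.single k 1 + 0)) c = C c * (X j * X k) := by
      rw [add_zero, X, X, monomial_mul, C_mul_monomial]
      simp
    rw [h5, Finset.sum_eq_single j]
    · rw [Finset.sum_eq_single k]
      · simp
      · intro k' _ hk
        simp [hk]
      · simp
    · intro j' _ hj
      simp [hj]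
    · simp

/-- Quadratic involutions have a fixed point. -/
theorem fixed_point {V : Type} [AddCommGroup V] [Module ℂ V] (c : V) (l : V →ₗ[ℂ] V)
    (B : V →ₗ[ℂ] V →ₗ[ℂ] V)
    (hf : ∀ x, c + l (c + l x + B x x) + B (c + l x + B x x) (c + l x + B x x) = x) :
    ∃ p, c + l p + B p p = p := by
  have hq4 : B (B c c) (B c c) = 0 := by
    have h0 := hf 0
    have h1 := hf c
    have h2 := hf (-c)
    have h3 := hf ((2 : ℂ) • c)
    have h4 := hf (-(2 : ℂ) • c)
    simp only [map_add, map_smul, map_neg, LinearMap.add_apply, LinearMap.smul_apply,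
      LinearMap.neg_apply, map_zero, smul_add, add_zero] at h0 h1 h2 h3 h4
    have h5 : (24 : ℂ) • B (B c c) (B c c) = 0 := by
      linear_combination (norm := module) h3 + h4 - (4 : ℂ) • h1 - (4 : ℂ) • h2 + (6 : ℂ) • h0
    exact (smul_eq_zero.1 h5).resolve_left (by norm_num)
  have h0 : c + l c + B c c = 0 := by
    have := hf 0
    simpa using this
  have hm : c + l ((1 / 2 : ℂ) • c) + B ((1 / 2 : ℂ) • c) ((1 / 2 : ℂ) • c)
      = (1 / 2 : ℂ) • c - (1 / 4 : ℂ) • B c c := by
    simp only [map_smul, LinearMap.smul_apply]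
    linear_combination (norm := module) (1 / 2 : ℂ) • h0
  have h1 := hf ((1 / 2 : ℂ) • c)
  rw [hm] at h1
  have h2 : (2 : ℂ) • B c c + (2 : ℂ) • l (B c c) + B c (B c c) + B (B c c) c = 0 := by
    simp only [map_sub, map_smul, LinearMap.sub_apply, LinearMap.smul_apply] at h1
    linear_combination (norm := module) (-8 : ℂ) • h1 + (4 : ℂ) • h0 + (1 / 2 : ℂ) • hq4
  refine ⟨(1 / 2 : ℂ) • c - (1 / 8 : ℂ) • B c c, ?_⟩
  simp only [map_sub, map_smul, LinearMap.sub_apply, LinearMap.smul_apply]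
  linear_combination (norm := module) (1 / 2 : ℂ) • h0 - (1 / 16 : ℂ) • h2 + (1 / 64 : ℂ) • hq4

end Pool.Agent.L5helper13.IV
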