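import Pool.Agent.L5helper13.IV.Main

set_option autoImplicit false

namespace Pool.Agent.L5helper13.IV

open MvPolynomial

variable {n : ℕ}

theorem eval_aeval (T : Fin n → MvPolynomial (Fin n) ℂ) (x : Fin n → ℂ)
    (p : MvPolynomial (Fin n) ℂ) : eval x (aeval T p) = eval (fun i => eval x (T i)) p := by
  have := eval_hom (aeval T) x p
  rw [this]
  congr 1
  congr 1
  funext i
  rw [aeval_X]

/-- A polynomial in one variable which takes the same value at all integer multiples of a nonzero
number is constant. -/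
theorem const_of_int (g : Polynomial ℂ) (s : ℂ) (hs : s ≠ 0) (y : ℂ)
    (h : ∀ k : ℕ, g.eval (k * s) = y) (t : ℂ) : g.eval t = y := by
  have h1 : g = Polynomial.C y := by
    apply Polynomial.eq_of_infinite_eval_eq
    refine Set.Infinite.mono (s := Set.range fun k : ℕ => (k : ℂ) * s) ?_ ?_
    · rintro _ ⟨k, rfl⟩
      simp [h k]
    · apply Set.infinite_range_of_injective
      intro a b hab
      have := mul_right_cancel₀ hs hab
      exact_mod_cast this
  rw [h1, Polynomial.eval_C]

theorem step_lemma {V : Type} [AddCommGroup V] [Module ℂ V] (c : V) (l : V →ₗ[ℂ] V)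
    (k : V → V) (τ : ℂ) (hτ0 : τ ≠ 0)
    (hff : ∀ x, c + l (c + l x + k x) + k (c + l x + k x) = x)
    (hLL : ∀ x, c + l (c + l x) = x)
    (hTT : ∀ x, c + l (c + l x + τ • k x) + τ • k (c + l x + τ • k x) = x) :
    (∀ x, l (l x) = x) ∧ (∀ x, k (c + l x + k x) = - l (k x)) ∧
      ∀ (m : ℕ) x, k (x + ((m : ℂ) * (τ - 1)) • l (k x)) = k x := by
  have hcl : c + l c = 0 := by
    have := hLL 0
    rwa [map_zero, add_zero] at this
  have hll : ∀ x, l (l x) = x := by
    intro x
    have h1 := hLL x
    rw [map_add] at h1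
    have h3 : l (l x) = (c + (l c + l (l x))) - (c + l c) := by abel
    rw [h3, h1, hcl, sub_zero]
  have hk1 : ∀ x, k (c + l x + k x) = - l (k x) := by
    intro x
    have h1 := hff x
    rw [map_add, map_add, hll] at h1
    have h2 : k (c + l x + k x) = (c + (l c + x + l (k x)) + k (c + l x + k x)) - (c + l c) - x
        - l (k x) := by abel
    rw [h2, h1, hcl]
    abel
  have hkτ : ∀ x, k (c + l x + τ • k x) = - l (k x) := by
    intro x
    have h1 := hTT x
    rw [map_add, map_add, map_smul, hll] at h1
    have h2 : τ • (k (c + l x + τ • k x) + l (k x)) = 0 := by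
      rw [smul_add]
      have h3 : τ • k (c + l x + τ • k x) + τ • l (k x) = (c + (l c + x + τ • l (k x))
        + τ • k (c + l x + τ • k x)) - (c + l c) - x := by abel
      rw [h3, h1, hcl]
      abel
    exact eq_neg_of_add_eq_zero_left ((smul_eq_zero.1 h2).resolve_left hτ0)
  have hstep : ∀ x, k (x + (τ - 1) • l (k x)) = k x := by
    intro x
    have h1 := hk1 (c + l x + τ • k x)
    rw [hkτ x] at h1
    have h2 : c + l (c + l x + τ • k x) + -l (k x) = x + (τ - 1) • l (k x) := by
      rw [map_add, map_add, map_smul, hll, sub_smul, one_smul]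
      have h3 : c + (l c + x + τ • l (k x)) + -l (k x)
        = (c + l c) + (x + (τ • l (k x) - l (k x))) := by abel
      rw [h3, hcl, zero_add]
    rw [h2, map_neg, hll, neg_neg] at h1
    exact h1
  refine ⟨hll, hk1, ?_⟩
  intro m
  induction m with
  | zero => intro x; simp
  | succ m ih =>
    intro x
    have h1 := ih (x + (τ - 1) • l (k x))
    rw [hstep x] at h1
    have h2 : x + (((m + 1 : ℕ) : ℂ) * (τ - 1)) • l (k x)
        = x + (τ - 1) • l (k x) + ((m : ℂ) * (τ - 1)) • l (k x) := by
      push_cast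
      module
    rw [h2]
    exact h1

theorem line_const (H : MvPolynomial (Fin n) ℂ) (x v : Fin n → ℂ) (s : ℂ) (hs : s ≠ 0) (y : ℂ)
    (h : ∀ m : ℕ, eval (x + ((m : ℂ) * s) • v) H = y) (t : ℂ) : eval (x + t • v) H = y := by
  have hge : ∀ t : ℂ, (aeval (fun j => Polynomial.C (x j) + Polynomial.C (v j) *
      Polynomial.X) H : Polynomial ℂ).eval t = eval (x + t • v) H := by
    intro t
    have h1 : (Polynomial.evalRingHom t).comp (aeval (fun j => Polynomial.C (x j) +
        Polynomial.C (v j) * Polynomial.X) : MvPolynomial (Fin n) ℂ →ₐ[ℂ] _).toRingHom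
        = eval (x + t • v) := by
      apply MvPolynomial.ringHom_ext
      · intro r
        simp
      · intro j
        simp
        ring
    exact congrArg (fun f => f H) h1
  rw [← hge]
  exact const_of_int _ s hs y (fun m => by rw [hge, h]) t

theorem affine_form (L : MvPolynomial (Fin n) ℂ) (hL : L.totalDegree ≤ 1) :
    ∃ (c : ℂ) (a : Fin n → ℂ), ∀ x, eval x L = c + ∑ j, a j * x j := by
  have h1 := decomp L (hL.trans (by norm_num))
  rw [homogeneousComponent_eq_zero 2 _ (by omega), add_zero] at h1
  obtain ⟨a, ha⟩ := lin_form (homogeneousComponent 1 L) (homogeneousComponent_isHomogeneous 1 _)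
  refine ⟨coeff 0 L, a, fun x => ?_⟩
  have h2 := congrArg (eval x) h1
  rw [map_add, eval_C, ha] at h2
  exact h2

end Pool.Agent.L5helper13.IV
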