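import Pool.Agent.L5helper13.IV.Three

set_option autoImplicit false

namespace Pool.Agent.L5helper13.IV

open MvPolynomial

variable {n : ℕ}

theorem exists_equiv (f g : MvPolynomial (Fin n) ℂ →ₐ[ℂ] MvPolynomial (Fin n) ℂ)
    (h1 : ∀ p, f (g p) = p) (h2 : ∀ p, g (f p) = p) :
    ∃ G : MvPolynomial (Fin n) ℂ ≃ₐ[ℂ] MvPolynomial (Fin n) ℂ, ∀ p, G p = f p :=
  ⟨AlgEquiv.ofAlgHom f g (AlgHom.ext h1) (AlgHom.ext h2), fun _ => rfl⟩

/-- The automorphism `x + s l(k x)`. -/
theorem shear (a : Fin n → Fin n → ℂ) (H : Fin n → MvPolynomial (Fin n) ℂ)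
    (l : (Fin n → ℂ) →ₗ[ℂ] (Fin n → ℂ)) (hl : ∀ x i, l x i = ∑ j, a i j * x j)
    (hall : ∀ (s : ℂ) (x : Fin n → ℂ) (i : Fin n),
      eval (x + s • l (fun i => eval x (H i))) (H i) = eval x (H i)) (s : ℂ) :
    ∃ G : MvPolynomial (Fin n) ℂ ≃ₐ[ℂ] MvPolynomial (Fin n) ℂ,
      ∀ x p, eval x (G p) = eval (x + s • l (fun i => eval x (H i))) p := by
  have hPe : ∀ (s : ℂ) (x : Fin n → ℂ) (i : Fin n),
      eval x (X i + C s * ∑ j, C (a i j) * H j) = (x + s • l (fun i => eval x (H i))) i := by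
    intro s x i
    simp [hl]
  have hPe2 : ∀ (s : ℂ) (x : Fin n → ℂ) (p : MvPolynomial (Fin n) ℂ),
      eval x (aeval (fun i => X i + C s * ∑ j, C (a i j) * H j) p)
        = eval (x + s • l (fun i => eval x (H i))) p := by
    intro s x p
    rw [eval_aeval]
    congr 1
    congr 1
    funext i
    exact hPe s x i
  have hinv : ∀ (s : ℂ) (p : MvPolynomial (Fin n) ℂ),
      aeval (fun i => X i + C s * ∑ j, C (a i j) * H j)
        (aeval (fun i => X i + C (-s) * ∑ j, C (a i j) * H j) p) = p := by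
    intro s p
    apply MvPolynomial.funext
    intro x
    rw [hPe2, hPe2]
    have h1 : (fun i => eval (x + s • l (fun i => eval x (H i))) (H i)) = fun i => eval x (H i) :=
      funext fun i => hall s x i
    rw [h1]
    have h2 : x + s • l (fun i => eval x (H i)) + (-s) • l (fun i => eval x (H i)) = x := by
      rw [neg_smul]
      abel
    rw [h2]
  obtain ⟨G, hG⟩ := exists_equiv (aeval (fun i => X i + C s * ∑ j, C (a i j) * H j))
    (aeval (fun i => X i + C (-s) * ∑ j, C (a i j) * H j)) (hinv s) (by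
      intro p
      have h1 := hinv (-s) p
      rw [neg_neg] at h1
      exact h1)
  refine ⟨G, fun x p => ?_⟩
  rw [hG, hPe2]

/-- Three involutions on a line, one of them affine. -/
theorem three (F : MvPolynomial (Fin n) ℂ ≃ₐ[ℂ] MvPolynomial (Fin n) ℂ)
    (hF : ∀ p, F (F p) = p) (L H : Fin n → MvPolynomial (Fin n) ℂ) (τ : ℂ)
    (hτ0 : τ ≠ 0) (hτ1 : τ ≠ 1)
    (hL1 : ∀ i, (L i).totalDegree ≤ 1) (hFX : ∀ i, F (X i) = L i + H i)
    (hLi : ∀ i, aeval L (L i) = X i)
    (hTi : ∀ i, aeval (fun j => L j + C τ * H j) (L i + C τ * H i) = X i) :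
    ∃ G : MvPolynomial (Fin n) ℂ ≃ₐ[ℂ] MvPolynomial (Fin n) ℂ,
      ∀ i, (G.symm (F (G (X i)))).IsHomogeneous 1 := by
  choose c a hca using fun i => affine_form (L i) (hL1 i)
  obtain ⟨l, hl⟩ : ∃ l : (Fin n → ℂ) →ₗ[ℂ] (Fin n → ℂ), ∀ x i, l x i = ∑ j, a i j * x j :=
    ⟨Matrix.toLin' (Matrix.of a), fun x i => by
      simp [Matrix.toLin'_apply, Matrix.mulVec, dotProduct]⟩
  obtain ⟨k, hk⟩ : ∃ k : (Fin n → ℂ) → (Fin n → ℂ), ∀ x i, k x i = eval x (H i) :=
    ⟨fun x i => eval x (H i), fun x i => rfl⟩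
  have hLe : ∀ x, (fun i => eval x (L i)) = c + l x := by
    intro x
    funext i
    rw [hca, Pi.add_apply, hl]
  have hFe : ∀ x p, eval x (F p) = eval (c + l x + k x) p := by
    intro x p
    have h1 := eval_hom (F : MvPolynomial (Fin n) ℂ →ₐ[ℂ] MvPolynomial (Fin n) ℂ) x p
    simp only [AlgEquiv.coe_toAlgHom] at h1
    have h2 : (fun i => eval x (F (X i))) = c + l x + k x := by
      funext i
      rw [hFX, map_add, Pi.add_apply, ← hLe x, hk]
    rw [h1, h2]
  have hff : ∀ x, c + l (c + l x + k x) + k (c + l x + k x) = x := by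
    intro x
    funext i
    have h1 := hFe x (F (X i))
    rw [hF, eval_X, hFe, eval_X] at h1
    exact h1.symm
  have hLL : ∀ x, c + l (c + l x) = x := by
    intro x
    funext i
    have h1 := congrArg (eval x) (hLi i)
    rw [eval_aeval, eval_X, hLe] at h1
    have h2 := congrFun (hLe (c + l x)) i
    rw [← h2]
    exact h1
  have hTT : ∀ x, c + l (c + l x + τ • k x) + τ • k (c + l x + τ • k x) = x := by
    intro x
    funext i
    have h1 := congrArg (eval x) (hTi i)
    have h2 : ∀ y, (fun j => eval y (L j + C τ * H j)) = c + l y + τ • k y := by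
      intro y
      funext j
      rw [map_add, map_mul, eval_C, Pi.add_apply, ← hLe y, Pi.smul_apply, smul_eq_mul, hk]
    rw [eval_aeval, eval_X, h2] at h1
    have h3 := congrFun (h2 (c + l x + τ • k x)) i
    rw [← h3]
    exact h1
  obtain ⟨hll, hk1, hmul⟩ := step_lemma c l k τ hτ0 hff hLL hTT
  have hkf : ∀ x, (fun i => eval x (H i)) = k x := fun x => funext fun i => (hk x i).symm
  have hall : ∀ (s : ℂ) (x : Fin n → ℂ) (i : Fin n),
      eval (x + s • l (fun i => eval x (H i))) (H i) = eval x (H i) := by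
    intro s x i
    rw [hkf]
    refine line_const (H i) x (l (k x)) (τ - 1) (sub_ne_zero.2 hτ1) _ (fun m => ?_) s
    rw [← hk, ← hk, hmul]
  obtain ⟨G, hG⟩ := shear a H l hl hall (1 / 2)
  have hLinv : (aeval L).comp (aeval L) = AlgHom.id ℂ (MvPolynomial (Fin n) ℂ) := by
    apply MvPolynomial.algHom_ext
    intro i
    rw [AlgHom.comp_apply, aeval_X, hLi, AlgHom.id_apply]
  have hLp : ∀ p, aeval L (aeval L p) = p := by
    intro p
    rw [← AlgHom.comp_apply, hLinv, AlgHom.id_apply]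
  obtain ⟨La, hLa⟩ := exists_equiv (aeval L) (aeval L) hLp hLp
  have hkey : ∀ q, F (G q) = G (La q) := by
    intro q
    apply MvPolynomial.funext
    intro x
    rw [hFe, hG, hG, hLa, eval_aeval, hkf, hkf, hLe, hk1, map_neg, hll, map_add, map_smul, hll]
    congr 2
    module
  obtain ⟨G2, hG2⟩ := quad La (fun p => by rw [hLa, hLa, hLp]) (fun i => by
      rw [hLa, aeval_X]
      exact (hL1 i).trans (by norm_num))
  refine ⟨G2.trans G, fun i => ?_⟩
  have e3 : (G2.trans G).symm (F ((G2.trans G) (X i))) = G2.symm (G.symm (F (G (G2 (X i))))) := rfl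
  rw [e3, hkey, AlgEquiv.symm_apply_apply]
  exact hG2 i

end Pool.Agent.L5helper13.IV
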